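import Mathlib

/-!
# Auxiliary polynomial by the pigeonhole principle (Dobrowolski type), and the
# product of the values of an integer polynomial over the roots of a monic one.
-/

namespace DOB48

open Polynomial

/-- the complex polynomial of an integer polynomial -/
noncomputable abbrev toC (f : ℤ[X]) : ℂ[X] := f.map (Int.castRingHom ℂ)

/-- product of the values of `A` at the complex roots of `f` -/
noncomputable def Nm (f A : ℤ[X]) : ℂ := ((toC f).roots.map (fun b => (toC A).eval b)).prod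

theorem nm_int (f A : ℤ[X]) (hf : f.Monic) : ∃ n : ℤ, Nm f A = (n : ℂ) := by
  have hm : (toC f).Monic := hf.map _
  have h1 := resultant_eq_prod_eval (toC f) (toC A) A.natDegree
    (natDegree_map_le) (IsAlgClosed.splits _)
  rw [hm.leadingCoeff, one_pow, one_mul] at h1
  rw [resultant_map_map] at h1
  exact ⟨_, h1.symm⟩

/-- a monic irreducible integer polynomial divides every integer polynomial sharing a root -/
theorem dvd_of_root {f : ℤ[X]} (hf : f.Monic) (hi : Irreducible f) {b : ℂ}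
    (hb : (toC f).eval b = 0) {A : ℤ[X]} (hA : (toC A).eval b = 0) : f ∣ A := by
  have hb' : aeval b f = 0 := by
    rw [aeval_def, eval₂_eq_eval_map]
    exact hb
  have hA' : aeval b A = 0 := by
    rw [aeval_def, eval₂_eq_eval_map]
    exact hA
  have hint : IsIntegral ℤ b := ⟨f, hf, hb'⟩
  have h1 : minpoly ℤ b ∣ f := minpoly.isIntegrallyClosed_dvd hint hb'
  have h2 : minpoly ℤ b ∣ A := minpoly.isIntegrallyClosed_dvd hint hA'
  obtain ⟨c, hc⟩ := h1
  have hnu : ¬ IsUnit (minpoly ℤ b) := minpoly.not_isUnit ℤ b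
  have hu : IsUnit c := by
    rcases hi.isUnit_or_isUnit hc with h | h
    · exact absurd h hnu
    · exact h
  have h3 : f ∣ minpoly ℤ b := by
    rw [hc]
    exact (hu.mul_right_dvd).mpr dvd_rfl
  exact h3.trans h2

theorem roots_nodup {f : ℤ[X]} (hf : f.Monic) (hi : Irreducible f) : (toC f).roots.Nodup := by
  have h1 : Irreducible (f.map (algebraMap ℤ ℚ)) :=
    (hf.irreducible_iff_irreducible_map_fraction_map).mp hi
  have h2 : (f.map (algebraMap ℤ ℚ)).Separable := h1.separable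
  have h3 : ((f.map (algebraMap ℤ ℚ)).map (algebraMap ℚ ℂ)).Separable := h2.map
  have h4 : (f.map (algebraMap ℤ ℚ)).map (algebraMap ℚ ℂ) = toC f := by
    rw [Polynomial.map_map]
    congr 1
  rw [h4] at h3
  exact nodup_roots h3

/-- if all roots of `f` are `u`-fold zeros of `A` then `f ^ u` divides `A` -/
theorem pow_dvd_of_roots {f : ℤ[X]} (hf : f.Monic) (hi : Irreducible f) {A : ℤ[X]} (hA : A ≠ 0)
    {u : ℕ} (h : ∀ b ∈ (toC f).roots, (X - C b) ^ u ∣ toC A) : f ^ u ∣ A := by
  have hinj : Function.Injective (Int.castRingHom ℂ) := Int.cast_injective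
  have hA' : toC A ≠ 0 := (Polynomial.map_ne_zero_iff hinj).mpr hA
  rw [← Polynomial.map_dvd_map (Int.castRingHom ℂ) hinj (hf.pow u)]
  rw [Polynomial.map_pow]
  have hspl : (toC f) = ((toC f).roots.map (fun a => X - C a)).prod := by
    have := (IsAlgClosed.splits (toC f)).eq_prod_roots
    rw [(hf.map (Int.castRingHom ℂ)).leadingCoeff, C_1, one_mul] at this
    exact this
  have h1 : (toC f) ^ u = ((u • (toC f).roots).map (fun a => X - C a)).prod := by
    conv_lhs => rw [hspl]
    rw [Multiset.map_nsmul, Multiset.prod_nsmul]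
  change (toC f) ^ u ∣ toC A
  rw [h1, Multiset.prod_X_sub_C_dvd_iff_le_roots hA', Multiset.le_iff_count]
  intro b
  rw [Multiset.count_nsmul]
  by_cases hb : b ∈ (toC f).roots
  · rw [Multiset.count_eq_one_of_mem (roots_nodup hf hi) hb, mul_one, count_roots]
    exact (le_rootMultiplicity_iff hA').mpr (h b hb)
  · rw [Multiset.count_eq_zero_of_notMem hb, mul_zero]
    exact Nat.zero_le _

theorem pow_dvd_of_hasse {f : ℤ[X]} (hf : f.Monic) (hi : Irreducible f) {A : ℤ[X]} (hA : A ≠ 0)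
    {u : ℕ} (h : ∀ j < u, f ∣ hasseDeriv j A) : f ^ u ∣ A := by
  apply pow_dvd_of_roots hf hi hA
  intro b hb
  have hb0 : (toC f).eval b = 0 := (isRoot_of_mem_roots hb)
  rw [X_sub_C_pow_dvd_iff]
  have h1 : (toC A).comp (X + C b) = taylor b (toC A) := rfl
  rw [h1, X_pow_dvd_iff]
  intro d hd
  rw [taylor_coeff]
  obtain ⟨g, hg⟩ := h d hd
  have h2 : hasseDeriv d (toC A) = toC (hasseDeriv d A) := by
    ext i
    simp [hasseDeriv_coeff, coeff_map]
  rw [h2, hg, toC, Polynomial.map_mul, eval_mul]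
  change (toC f).eval b * _ = 0
  rw [hb0, zero_mul]

/-- size of the Hasse derivatives -/
theorem hasse_bound {P : ℤ[X]} {N H u j : ℕ} (hdeg : P.natDegree < N)
    (hc : ∀ i, |P.coeff i| ≤ (H : ℤ)) (hj : j < u) (b : ℂ) :
    ‖(toC (hasseDeriv j P)).eval b‖ ≤ (H : ℝ) * (N : ℝ) ^ u * (max 1 ‖b‖) ^ N := by
  have hN1 : 1 ≤ N := by omega
  have hN1' : (1 : ℝ) ≤ N := by exact_mod_cast hN1
  have hm1 : (1 : ℝ) ≤ max 1 ‖b‖ := le_max_left _ _
  have hd : (toC (hasseDeriv j P)).natDegree < N := by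
    have h1 : (toC (hasseDeriv j P)).natDegree ≤ (hasseDeriv j P).natDegree := natDegree_map_le
    have h2 : (hasseDeriv j P).natDegree ≤ P.natDegree - j := natDegree_hasseDeriv_le P j
    omega
  rw [eval_eq_sum_range' hd]
  have hterm : ∀ i ∈ Finset.range N, ‖(toC (hasseDeriv j P)).coeff i * b ^ i‖
      ≤ (H : ℝ) * (N : ℝ) ^ j * (max 1 ‖b‖) ^ N := by
    intro i hi
    have hiN : i < N := Finset.mem_range.mp hi
    rw [norm_mul, norm_pow, coeff_map, hasseDeriv_coeff]
    have hb : ‖b‖ ^ i ≤ (max 1 ‖b‖) ^ N :=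
      (pow_le_pow_left₀ (norm_nonneg b) (le_max_right _ _) i).trans
        (pow_le_pow_right₀ hm1 hiN.le)
    by_cases hij : i + j < N
    · have h3 : ‖(Int.castRingHom ℂ) (((i + j).choose j : ℤ) * P.coeff (i + j))‖
          ≤ (H : ℝ) * (N : ℝ) ^ j := by
        have h4 : (Int.castRingHom ℂ) (((i + j).choose j : ℤ) * P.coeff (i + j))
            = (((((i + j).choose j : ℤ) * P.coeff (i + j) : ℤ)) : ℂ) := rfl
        rw [h4, Complex.norm_intCast, Int.cast_mul, abs_mul]
        have h5 : |(((i + j).choose j : ℤ) : ℝ)| ≤ (N : ℝ) ^ j := by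
          have h6 : (i + j).choose j ≤ N ^ j :=
            (Nat.choose_le_pow (i + j) j).trans (Nat.pow_le_pow_left hij.le j)
          rw [abs_of_nonneg (by positivity)]
          exact_mod_cast h6
        have h7 : |((P.coeff (i + j) : ℤ) : ℝ)| ≤ (H : ℝ) := by
          have := hc (i + j)
          exact_mod_cast this
        calc |(((i + j).choose j : ℤ) : ℝ)| * |((P.coeff (i + j) : ℤ) : ℝ)|
            ≤ (N : ℝ) ^ j * (H : ℝ) := mul_le_mul h5 h7 (abs_nonneg _) (by positivity)
          _ = (H : ℝ) * (N : ℝ) ^ j := mul_comm _ _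
      exact mul_le_mul h3 hb (by positivity) (by positivity)
    · have h8 : P.coeff (i + j) = 0 := coeff_eq_zero_of_natDegree_lt (by omega)
      rw [h8, mul_zero, map_zero, norm_zero, zero_mul]
      positivity
  calc ‖∑ i ∈ Finset.range N, (toC (hasseDeriv j P)).coeff i * b ^ i‖
      ≤ ∑ i ∈ Finset.range N, ‖(toC (hasseDeriv j P)).coeff i * b ^ i‖ := norm_sum_le _ _
    _ ≤ ∑ _i ∈ Finset.range N, (H : ℝ) * (N : ℝ) ^ j * (max 1 ‖b‖) ^ N :=
        Finset.sum_le_sum hterm
    _ = (H : ℝ) * (N : ℝ) ^ (j + 1) * (max 1 ‖b‖) ^ N := by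
        rw [Finset.sum_const, Finset.card_range, nsmul_eq_mul]
        ring
    _ ≤ (H : ℝ) * (N : ℝ) ^ u * (max 1 ‖b‖) ^ N := by
        have h9 : (N : ℝ) ^ (j + 1) ≤ (N : ℝ) ^ u := pow_le_pow_right₀ hN1' hj
        gcongr

theorem exists_cell {Q : ℕ} (hQ : 1 ≤ Q) {R x : ℝ} (hx : |x| ≤ R) :
    ∃ k : Fin (2 * Q), -R + (k : ℕ) * (R / Q) ≤ x ∧ x ≤ -R + ((k : ℕ) + 1) * (R / Q) := by
  have hQ' : (0 : ℝ) < Q := by exact_mod_cast hQ
  have hR : 0 ≤ R := (abs_nonneg x).trans hx
  obtain ⟨hx1, hx2⟩ := abs_le.mp hx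
  rcases hR.eq_or_lt with h0 | hpos
  · refine ⟨⟨0, by omega⟩, ?_, ?_⟩
    · rw [← h0] at hx1 ⊢
      simpa using hx1
    · rw [← h0] at hx2 ⊢
      simpa using hx2
  · have hRQ : 0 < R / Q := div_pos hpos hQ'
    set y := (x + R) / (R / Q) with hy
    have hy0 : 0 ≤ y := div_nonneg (by linarith) hRQ.le
    have hxy : x = -R + y * (R / Q) := by
      rw [hy, div_mul_cancel₀ _ hRQ.ne']
      ring
    by_cases hlt : y < 2 * Q
    · refine ⟨⟨⌊y⌋₊, ?_⟩, ?_, ?_⟩
      · rw [Nat.floor_lt hy0]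
        push_cast
        exact hlt
      · conv_rhs => rw [hxy]
        have := Nat.floor_le hy0
        simp only
        gcongr
      · conv_lhs => rw [hxy]
        have := (Nat.lt_floor_add_one y).le
        simp only
        gcongr
    · push Not at hlt
      have h2 : 2 * (Q : ℝ) * (R / Q) = 2 * R := by field_simp
      have h3 : y * (R / Q) ≥ 2 * R := by
        rw [← h2]
        exact mul_le_mul_of_nonneg_right hlt hRQ.le
      have hxR : x = R := by linarith
      refine ⟨⟨2 * Q - 1, by omega⟩, ?_, ?_⟩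
      · have h4 : (((2 * Q - 1 : ℕ)) : ℝ) = 2 * Q - 1 := by
          rw [Nat.cast_sub (by omega)]
          push_cast
          ring
        simp only [h4]
        have : (2 * (Q : ℝ) - 1) * (R / Q) ≤ 2 * R := by
          rw [← h2]
          gcongr
          linarith
        linarith
      · have h4 : (((2 * Q - 1 : ℕ)) : ℝ) = 2 * Q - 1 := by
          rw [Nat.cast_sub (by omega)]
          push_cast
          ring
        simp only [h4]
        have : (2 * (Q : ℝ) - 1 + 1) * (R / Q) = 2 * R := by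
          rw [← h2]
          ring
        linarith

/-- the polynomial with given coefficients -/
noncomputable def mk {N : ℕ} (c : Fin N → ℤ) : ℤ[X] := ∑ i : Fin N, monomial (i : ℕ) (c i)

theorem mk_coeff {N : ℕ} (c : Fin N → ℤ) (i : ℕ) :
    (mk c).coeff i = if h : i < N then c ⟨i, h⟩ else 0 := by
  classical
  unfold mk
  rw [finsetSum_coeff]
  simp only [coeff_monomial]
  by_cases h : i < N
  · rw [dif_pos h, Finset.sum_eq_single (⟨i, h⟩ : Fin N)]
    · simp
    · intro j _ hj
      rw [if_neg]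
      intro hji
      exact hj (Fin.ext hji)
    · intro h'
      exact absurd (Finset.mem_univ _) h'
  · rw [dif_neg h]
    apply Finset.sum_eq_zero
    intro j _
    rw [if_neg]
    have := j.isLt
    omega

theorem mk_natDegree {N : ℕ} (hN : 1 ≤ N) (c : Fin N → ℤ) : (mk c).natDegree < N := by
  have : (mk c).natDegree ≤ N - 1 := by
    rw [natDegree_le_iff_coeff_eq_zero]
    intro i hi
    rw [mk_coeff, dif_neg (by omega)]
  omega

/-- pigeonhole: an integer polynomial all of whose first Hasse derivatives are small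
at all the roots of `f` -/
theorem pigeon (f : ℤ[X]) {u N H Q : ℕ} (hQ : 1 ≤ Q)
    (h1 : (2 * Q) ^ (2 * u * f.natDegree) < (H + 1) ^ N) :
    ∃ A : ℤ[X], A ≠ 0 ∧ A.natDegree < N ∧ (∀ i, |A.coeff i| ≤ (H : ℤ)) ∧
      ∀ b ∈ (toC f).roots, ∀ j < u,
        ‖(toC (hasseDeriv j A)).eval b‖ ≤ 2 * ((H : ℝ) * (N : ℝ) ^ u / Q) * (max 1 ‖b‖) ^ N := by
  classical
  have hQ' : (0 : ℝ) < Q := by exact_mod_cast hQ
  have hN : 1 ≤ N := by
    rcases Nat.eq_zero_or_pos N with h | h
    · rw [h, pow_zero] at h1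
      have : 1 ≤ (2 * Q) ^ (2 * u * f.natDegree) := Nat.one_le_pow _ _ (by omega)
      omega
    · exact h
  let P : (Fin N → Fin (H + 1)) → ℤ[X] := fun c => mk (fun i => ((c i : ℕ) : ℤ))
  have hPdeg : ∀ c, (P c).natDegree < N := fun c => mk_natDegree hN _
  have hPc : ∀ c i, |(P c).coeff i| ≤ (H : ℤ) := by
    intro c i
    simp only [P, mk_coeff]
    split_ifs with h
    · have := (c ⟨i, h⟩).isLt
      rw [abs_of_nonneg (by positivity)]
      omega
    · simp
  -- cells
  let ι := {b // b ∈ (toC f).roots.toFinset} × Fin u × Fin 2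
  let Rr : ℂ → ℝ := fun b => (H : ℝ) * (N : ℝ) ^ u * (max 1 ‖b‖) ^ N
  let val : (Fin N → Fin (H + 1)) → ι → ℝ := fun c t =>
    if t.2.2 = 0 then ((toC (hasseDeriv (t.2.1 : ℕ) (P c))).eval t.1.1).re
    else ((toC (hasseDeriv (t.2.1 : ℕ) (P c))).eval t.1.1).im
  have hval : ∀ c t, |val c t| ≤ Rr t.1.1 := by
    intro c t
    have hb := hasse_bound (hPdeg c) (hPc c) (t.2.1.isLt) t.1.1
    simp only [val]
    split_ifs
    · exact (Complex.abs_re_le_norm _).trans hb
    · exact (Complex.abs_im_le_norm _).trans hb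
  let cell : (Fin N → Fin (H + 1)) → ι → Fin (2 * Q) := fun c t =>
    Classical.choose (exists_cell hQ (hval c t))
  have hcell : ∀ c t, -(Rr t.1.1) + ((cell c t : Fin (2 * Q)) : ℕ) * (Rr t.1.1 / Q) ≤ val c t ∧
      val c t ≤ -(Rr t.1.1) + (((cell c t : Fin (2 * Q)) : ℕ) + 1) * (Rr t.1.1 / Q) :=
    fun c t => Classical.choose_spec (exists_cell hQ (hval c t))
  have hcard : Fintype.card (ι → Fin (2 * Q)) < Fintype.card (Fin N → Fin (H + 1)) := by
    rw [Fintype.card_fun, Fintype.card_fun, Fintype.card_fin, Fintype.card_fin, Fintype.card_fin]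
    refine lt_of_le_of_lt ?_ h1
    apply Nat.pow_le_pow_right (by omega)
    simp only [ι, Fintype.card_prod, Fintype.card_fin, Fintype.card_coe]
    have h2 : (toC f).roots.toFinset.card ≤ f.natDegree := by
      calc (toC f).roots.toFinset.card ≤ Multiset.card (toC f).roots :=
            Multiset.toFinset_card_le _
        _ ≤ (toC f).natDegree := card_roots' _
        _ ≤ f.natDegree := natDegree_map_le
    calc (toC f).roots.toFinset.card * (u * 2) ≤ f.natDegree * (u * 2) :=
          Nat.mul_le_mul_right _ h2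
      _ = 2 * u * f.natDegree := by ring
  obtain ⟨c, c', hne, hcc⟩ := Fintype.exists_ne_map_eq_of_card_lt cell hcard
  refine ⟨P c - P c', ?_, ?_, ?_, ?_⟩
  · intro h0
    apply hne
    have h2 : P c = P c' := sub_eq_zero.mp h0
    funext i
    have h3 : (P c).coeff (i : ℕ) = (P c').coeff (i : ℕ) := by rw [h2]
    simp only [P, mk_coeff, i.isLt, dif_pos] at h3
    apply Fin.ext
    exact_mod_cast h3
  · have h2 := natDegree_sub_le (P c) (P c')
    have h3 := hPdeg c
    have h4 := hPdeg c'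
    omega
  · intro i
    rw [coeff_sub]
    simp only [P, mk_coeff]
    split_ifs with h
    · have h2 := (c ⟨i, h⟩).isLt
      have h3 := (c' ⟨i, h⟩).isLt
      rw [abs_le]
      constructor <;> omega
    · simp
  · intro b hb j hj
    have hbf : b ∈ (toC f).roots.toFinset := Multiset.mem_toFinset.mpr hb
    have hdiff : ∀ k : Fin 2, |val c (⟨b, hbf⟩, ⟨j, hj⟩, k) - val c' (⟨b, hbf⟩, ⟨j, hj⟩, k)|
        ≤ Rr b / Q := by
      intro k
      have h2 := hcell c (⟨b, hbf⟩, ⟨j, hj⟩, k)
      have h3 := hcell c' (⟨b, hbf⟩, ⟨j, hj⟩, k)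
      rw [← hcc] at h3
      simp only at h2 h3
      rw [abs_le]
      constructor <;> linarith [h2.1, h2.2, h3.1, h3.2]
    have hre := hdiff 0
    have him := hdiff 1
    simp only [val, if_true, Fin.one_eq_zero_iff] at hre him
    have hsub : (toC (hasseDeriv j (P c - P c'))).eval b
        = (toC (hasseDeriv j (P c))).eval b - (toC (hasseDeriv j (P c'))).eval b := by
      rw [map_sub, toC, Polynomial.map_sub, eval_sub]
    rw [hsub]
    calc ‖(toC (hasseDeriv j (P c))).eval b - (toC (hasseDeriv j (P c'))).eval b‖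
        ≤ |((toC (hasseDeriv j (P c))).eval b - (toC (hasseDeriv j (P c'))).eval b).re|
          + |((toC (hasseDeriv j (P c))).eval b - (toC (hasseDeriv j (P c'))).eval b).im| :=
          Complex.norm_le_abs_re_add_abs_im _
      _ ≤ Rr b / Q + Rr b / Q := by
          rw [Complex.sub_re, Complex.sub_im]
          exact add_le_add hre (by simpa using him)
      _ = 2 * ((H : ℝ) * (N : ℝ) ^ u / Q) * (max 1 ‖b‖) ^ N := by
          simp only [Rr]
          ring

theorem card_roots_toC {f : ℤ[X]} (hf : f.Monic) :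
    Multiset.card (toC f).roots = f.natDegree := by
  have h1 := (IsAlgClosed.splits (toC f)).natDegree_eq_card_roots
  rw [← h1]
  exact hf.natDegree_map _

theorem mahler_toC {f : ℤ[X]} (hf : f.Monic) :
    (toC f).mahlerMeasure = ((toC f).roots.map (fun b => max 1 ‖b‖)).prod := by
  rw [mahlerMeasure_eq_leadingCoeff_mul_prod_roots, (hf.map (Int.castRingHom ℂ)).leadingCoeff,
    norm_one, one_mul]

/-- bound for `Nm f A` from a bound at each root -/
theorem nm_bound {f A : ℤ[X]} (hf : f.Monic) {c : ℝ} {N : ℕ}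
    (h : ∀ b ∈ (toC f).roots, ‖(toC A).eval b‖ ≤ c * (max 1 ‖b‖) ^ N) :
    ‖Nm f A‖ ≤ c ^ f.natDegree * (toC f).mahlerMeasure ^ N := by
  have h1 : ‖Nm f A‖ = ((toC f).roots.map (fun b => ‖(toC A).eval b‖)).prod := by
    unfold Nm
    have := map_multiset_prod (normHom : ℂ →*₀ ℝ) ((toC f).roots.map (fun b => (toC A).eval b))
    rw [Multiset.map_map] at this
    exact this
  rw [h1]
  calc ((toC f).roots.map (fun b => ‖(toC A).eval b‖)).prod
      ≤ ((toC f).roots.map (fun b => c * (max 1 ‖b‖) ^ N)).prod :=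
        Multiset.prod_map_le_prod_map₀ _ _ (fun _ _ => norm_nonneg _) h
    _ = c ^ f.natDegree * (toC f).mahlerMeasure ^ N := by
        rw [Multiset.prod_map_mul, Multiset.map_const', Multiset.prod_replicate,
          card_roots_toC hf, mahler_toC hf, Multiset.prod_map_pow]

theorem root_of_small {f A : ℤ[X]} (hf : f.Monic) (h : ‖Nm f A‖ < 1) :
    ∃ b ∈ (toC f).roots, (toC A).eval b = 0 := by
  obtain ⟨n, hn⟩ := nm_int f A hf
  have h0 : Nm f A = 0 := by
    rw [hn, Complex.norm_intCast] at h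
    have h2 : |n| < 1 := by exact_mod_cast h
    have h3 : n = 0 := Int.abs_lt_one_iff.mp h2
    rw [hn, h3, Int.cast_zero]
  unfold Nm at h0
  rw [Multiset.prod_eq_zero_iff] at h0
  obtain ⟨b, hb, hb0⟩ := Multiset.mem_map.mp h0
  exact ⟨b, hb, hb0⟩

/-- if the product of the values is small then `f` divides `A` -/
theorem dvd_of_small {f A : ℤ[X]} (hf : f.Monic) (hi : Irreducible f) (h : ‖Nm f A‖ < 1) :
    f ∣ A := by
  obtain ⟨b, hb, hb0⟩ := root_of_small hf h
  exact dvd_of_root hf hi (isRoot_of_mem_roots hb) hb0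

/-- **auxiliary polynomial** -/
theorem aux48 {f : ℤ[X]} (hf : f.Monic) (hi : Irreducible f) {u N H Q : ℕ} (hQ : 1 ≤ Q)
    (h1 : (2 * Q) ^ (2 * u * f.natDegree) < (H + 1) ^ N)
    (h2 : (2 * ((H : ℝ) * (N : ℝ) ^ u / Q)) ^ f.natDegree * (toC f).mahlerMeasure ^ N < 1) :
    ∃ A : ℤ[X], A ≠ 0 ∧ A.natDegree < N ∧ (∀ i, |A.coeff i| ≤ (H : ℤ)) ∧ f ^ u ∣ A := by
  obtain ⟨A, hA0, hAd, hAc, hAs⟩ := pigeon f hQ h1
  refine ⟨A, hA0, hAd, hAc, pow_dvd_of_hasse hf hi hA0 ?_⟩
  intro j hj
  apply dvd_of_small hf hi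
  refine lt_of_le_of_lt (nm_bound hf (fun b hb => hAs b hb j hj)) h2

end DOB48
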