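import Pool.Agent.DOB.Aux48

/-!
# Frobenius: values of `A` at the `p`-th powers of the roots
-/

namespace DOB48

open Polynomial

/-- product of the values of `A` at the `p`-th powers of the complex roots of `f` -/
theorem nm_expand (A : ℤ[X]) {p : ℕ} (b : ℂ) :
    (toC (expand ℤ p A)).eval b = (toC A).eval (b ^ p) := by
  rw [toC, map_expand, expand_eval]

/-- `f(X^p) = f(X)^p + p h(X)` -/
theorem expand_eq (f : ℤ[X]) {p : ℕ} (hp : p.Prime) :
    ∃ h : ℤ[X], expand ℤ p f = f ^ p + C (p : ℤ) * h := by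
  have : Fact p.Prime := ⟨hp⟩
  have h1 : (expand ℤ p f - f ^ p).map (Int.castRingHom (ZMod p)) = 0 := by
    rw [Polynomial.map_sub, map_expand, Polynomial.map_pow, ZMod.expand_card, sub_self]
  have h2 : C (p : ℤ) ∣ expand ℤ p f - f ^ p := by
    rw [C_dvd_iff_dvd_coeff]
    intro i
    have h3 : ((expand ℤ p f - f ^ p).map (Int.castRingHom (ZMod p))).coeff i = 0 := by
      rw [h1, coeff_zero]
    rw [coeff_map] at h3
    exact (ZMod.intCast_zmod_eq_zero_iff_dvd _ _).mp h3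
  obtain ⟨h, hh⟩ := h2
  exact ⟨h, by rw [← hh]; ring⟩

theorem frob48 {f A : ℤ[X]} (hf : f.Monic) {p u : ℕ} (hp : p.Prime) (hA : f ^ u ∣ A) :
    ∃ n : ℤ, Nm f (expand ℤ p A) = (((p : ℤ) ^ (u * f.natDegree) * n : ℤ) : ℂ) := by
  obtain ⟨g, rfl⟩ := hA
  obtain ⟨h, hh⟩ := expand_eq f hp
  obtain ⟨n, hn⟩ := nm_int f (h ^ u * expand ℤ p g) hf
  refine ⟨n, ?_⟩
  push_cast
  rw [← hn]
  unfold Nm
  have h1 : (toC f).roots.map (fun b => (toC (expand ℤ p (f ^ u * g))).eval b)
      = (toC f).roots.map (fun b => ((p : ℂ) ^ u) * (toC (h ^ u * expand ℤ p g)).eval b) := by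
    apply Multiset.map_congr rfl
    intro b hb
    have hb0 : (toC f).eval b = 0 := isRoot_of_mem_roots hb
    by_cases hu : u = 0
    · subst hu
      simp
    rw [map_mul, map_pow, hh]
    simp only [toC, Polynomial.map_mul, Polynomial.map_pow, Polynomial.map_add, eval_mul,
      eval_pow, eval_add, Polynomial.map_C, eval_C]
    have hb1 : (f.map (Int.castRingHom ℂ)).eval b = 0 := hb0
    rw [hb1, zero_pow hp.ne_zero, zero_add, mul_pow]
    simp only [eq_intCast, Int.cast_natCast]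
    ring
  rw [h1, Multiset.prod_map_mul, Multiset.map_const', Multiset.prod_replicate,
    card_roots_toC hf, ← pow_mul]

theorem frob_bound {f A : ℤ[X]} (hf : f.Monic) {N H p : ℕ} (hdeg : A.natDegree < N)
    (hc : ∀ i, |A.coeff i| ≤ (H : ℤ)) :
    ‖Nm f (expand ℤ p A)‖ ≤ ((H : ℝ) * N) ^ f.natDegree * (toC f).mahlerMeasure ^ (p * N) := by
  apply nm_bound hf
  intro b _
  rw [nm_expand]
  have h1 := hasse_bound (u := 1) (j := 0) hdeg hc (by norm_num) (b ^ p)
  rw [hasseDeriv_zero', pow_one, norm_pow] at h1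
  refine h1.trans ?_
  have h2 : (max 1 (‖b‖ ^ p)) = (max 1 ‖b‖) ^ p := by
    rcases le_total 1 ‖b‖ with h | h
    · rw [max_eq_right h, max_eq_right (one_le_pow₀ h)]
    · rw [max_eq_left h, max_eq_left (pow_le_one₀ (norm_nonneg _) h), one_pow]
  rw [h2, ← pow_mul]

/-- **Frobenius step**: a small auxiliary polynomial vanishes at the `p`-th power of a root -/
theorem frob_zero {f A : ℤ[X]} (hf : f.Monic) (hi : Irreducible f) {N H p u : ℕ}
    (hp : p.Prime) (hdeg : A.natDegree < N) (hc : ∀ i, |A.coeff i| ≤ (H : ℤ)) (hA : f ^ u ∣ A)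
    (hs : ((H : ℝ) * N) ^ f.natDegree * (toC f).mahlerMeasure ^ (p * N)
      < (p : ℝ) ^ (u * f.natDegree)) :
    ∀ b ∈ (toC f).roots, (toC A).eval (b ^ p) = 0 := by
  obtain ⟨n, hn⟩ := frob48 hf hp hA
  have hb := frob_bound (p := p) hf hdeg hc
  rw [hn, Complex.norm_intCast] at hb
  have h1 : |(((p : ℤ) ^ (u * f.natDegree) * n : ℤ) : ℝ)| < (p : ℝ) ^ (u * f.natDegree) :=
    hb.trans_lt hs
  have hpp : (0 : ℝ) < (p : ℝ) ^ (u * f.natDegree) := by
    have := hp.pos
    positivity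
  have h2 : n = 0 := by
    by_contra hne
    have h3 : 1 ≤ |n| := Int.one_le_abs hne
    have h4 : (1 : ℝ) ≤ |(n : ℝ)| := by exact_mod_cast h3
    push_cast at h1
    rw [abs_mul, abs_of_pos hpp] at h1
    nlinarith
  have h3 : Nm f (expand ℤ p A) = 0 := by rw [hn, h2, mul_zero, Int.cast_zero]
  have h4 : f ∣ expand ℤ p A := by
    apply dvd_of_small hf hi
    rw [h3, norm_zero]
    exact one_pos
  obtain ⟨g, hg⟩ := h4
  intro b hbr
  rw [← nm_expand, hg, toC, Polynomial.map_mul, eval_mul]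
  have hb0 : (toC f).eval b = 0 := isRoot_of_mem_roots hbr
  change (toC f).eval b * _ = 0
  rw [hb0, zero_mul]

end DOB48
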